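import Mathlib

/-!
Real matrices on finite index sets: bounded bilinear forms and Schur multipliers.
-/

set_option autoImplicit false

open Finset Filter Topology

namespace Pool.Agent.MP_24fbf1_an.Bi

variable {α β : Type*}

/-- The real matrix `T`, restricted to rows `s` and columns `t`, has norm at most `B`. -/
def Bdd (s : Finset α) (t : Finset β) (T : α → β → ℝ) (B : ℝ) : Prop :=
  ∀ (p : α → ℝ) (q : β → ℝ),
    2 * ∑ i ∈ s, ∑ j ∈ t, T i j * p i * q j ≤ B * (∑ i ∈ s, p i ^ 2 + ∑ j ∈ t, q j ^ 2)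

/-- The kernel `k` is a Schur multiplier of norm at most `N` on `s × t`. -/
def Mul (s : Finset α) (t : Finset β) (k : α → β → ℝ) (N : ℝ) : Prop :=
  ∀ (T : α → β → ℝ) (B : ℝ), 0 ≤ B → Bdd s t T B → Bdd s t (fun i j => k i j * T i j) (N * B)

variable {s : Finset α} {t : Finset β}

lemma sq_sum_nonneg (s : Finset α) (t : Finset β) (p : α → ℝ) (q : β → ℝ) :
    0 ≤ ∑ i ∈ s, p i ^ 2 + ∑ j ∈ t, q j ^ 2 :=
  add_nonneg (sum_nonneg fun _ _ => sq_nonneg _) (sum_nonneg fun _ _ => sq_nonneg _)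

lemma Bdd.congr {T T' : α → β → ℝ} {B : ℝ} (h : Bdd s t T B)
    (e : ∀ i ∈ s, ∀ j ∈ t, T' i j = T i j) : Bdd s t T' B := by
  intro p q
  rw [sum_congr rfl fun i hi => sum_congr rfl fun j hj => by rw [e i hi j hj]]
  exact h p q

lemma Bdd.mono {T : α → β → ℝ} {B B' : ℝ} (h : Bdd s t T B) (hB : B ≤ B') : Bdd s t T B' :=
  fun p q => (h p q).trans (mul_le_mul_of_nonneg_right hB (sq_sum_nonneg s t p q))

lemma Bdd.add {T T' : α → β → ℝ} {B B' : ℝ} (h : Bdd s t T B) (h' : Bdd s t T' B') :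
    Bdd s t (fun i j => T i j + T' i j) (B + B') := by
  intro p q
  have h1 := h p q
  have h2 := h' p q
  simp only [add_mul, sum_add_distrib]
  linarith

lemma Bdd.neg {T : α → β → ℝ} {B : ℝ} (h : Bdd s t T B) : Bdd s t (fun i j => - T i j) B := by
  intro p q
  have h1 := h (fun i => - p i) q
  simpa only [neg_mul, mul_neg, neg_sq] using h1

lemma Bdd.smul {T : α → β → ℝ} {B : ℝ} (h : Bdd s t T B) {c : ℝ} (hc : 0 ≤ c) :
    Bdd s t (fun i j => c * T i j) (c * B) := by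
  intro p q
  have h1 := mul_le_mul_of_nonneg_left (h p q) hc
  simp only [mul_assoc, ← mul_sum] at h1 ⊢
  linarith

lemma Bdd.swap {T : α → β → ℝ} {B : ℝ} (h : Bdd s t T B) : Bdd t s (fun j i => T i j) B := by
  intro q p
  have h1 := h p q
  rw [sum_comm, add_comm]
  refine le_of_eq_of_le ?_ h1
  congr 1
  exact sum_congr rfl fun i _ => sum_congr rfl fun j _ => by ring

/-- The value of the form at the all-ones vectors. -/
lemma Bdd.ones {T : α → β → ℝ} {B : ℝ} (h : Bdd s t T B) :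
    |∑ i ∈ s, ∑ j ∈ t, T i j| ≤ B * ((s.card : ℝ) + t.card) / 2 := by
  have h1 := h (fun _ => 1) (fun _ => 1)
  have h2 := h.neg (fun _ => 1) (fun _ => 1)
  simp only [mul_one, one_pow, sum_const, nsmul_eq_mul, sum_neg_distrib] at h1 h2
  rw [abs_le]
  constructor <;> linarith

/-- Analysis form of the bound. -/
lemma Bdd.analysis {T : α → β → ℝ} {B : ℝ} (h : Bdd s t T B) (hB : 0 ≤ B) (q : β → ℝ) :
    ∑ i ∈ s, (∑ j ∈ t, T i j * q j) ^ 2 ≤ B ^ 2 * ∑ j ∈ t, q j ^ 2 := by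
  set S := ∑ i ∈ s, (∑ j ∈ t, T i j * q j) ^ 2 with hS
  set Q := ∑ j ∈ t, q j ^ 2 with hQ
  have hS0 : 0 ≤ S := sum_nonneg fun _ _ => sq_nonneg _
  have hQ0 : 0 ≤ Q := sum_nonneg fun _ _ => sq_nonneg _
  have key : ∀ c : ℝ, 2 * (c * S) ≤ B * (c ^ 2 * S + Q) := by
    intro c
    have h1 := h (fun i => c * ∑ j ∈ t, T i j * q j) q
    have e1 : ∑ i ∈ s, ∑ j ∈ t, T i j * (c * ∑ j ∈ t, T i j * q j) * q j = c * S := by
      rw [hS, mul_sum]
      refine sum_congr rfl fun i _ => ?_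
      generalize hr : ∑ j ∈ t, T i j * q j = r
      rw [sq, ← mul_assoc]
      conv_rhs => rw [← hr, mul_sum]
      rw [hr]
      exact sum_congr rfl fun j _ => by ring
    have e2 : ∑ i ∈ s, (c * ∑ j ∈ t, T i j * q j) ^ 2 = c ^ 2 * S := by
      rw [hS, mul_sum]
      exact sum_congr rfl fun i _ => by ring
    rw [e1, e2] at h1
    exact h1
  rcases hB.eq_or_lt with h0 | h0
  · have := key 1
    rw [← h0] at this ⊢
    linarith
  · have h1 := key B⁻¹
    have e : B * (B⁻¹ ^ 2 * S + Q) = B⁻¹ * S + B * Q := by field_simp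
    rw [e] at h1
    have h2 : B⁻¹ * S ≤ B * Q := by linarith
    have h3 := mul_le_mul_of_nonneg_left h2 hB
    rw [← mul_assoc, mul_inv_cancel₀ h0.ne', one_mul] at h3
    nlinarith

lemma Mul.congr {k k' : α → β → ℝ} {N : ℝ} (h : Mul s t k N)
    (e : ∀ i ∈ s, ∀ j ∈ t, k' i j = k i j) : Mul s t k' N :=
  fun T B hB hT => (h T B hB hT).congr fun i hi j hj => by rw [e i hi j hj]

lemma Mul.mono {k : α → β → ℝ} {N N' : ℝ} (h : Mul s t k N) (hN : N ≤ N') : Mul s t k N' :=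
  fun T B hB hT => (h T B hB hT).mono (mul_le_mul_of_nonneg_right hN hB)

lemma Mul.add {k k' : α → β → ℝ} {N N' : ℝ} (h : Mul s t k N) (h' : Mul s t k' N') :
    Mul s t (fun i j => k i j + k' i j) (N + N') := fun T B hB hT => by
  have := (h T B hB hT).add (h' T B hB hT)
  simpa only [add_mul] using this

lemma Mul.neg {k : α → β → ℝ} {N : ℝ} (h : Mul s t k N) : Mul s t (fun i j => - k i j) N :=
  fun T B hB hT => by simpa only [neg_mul] using (h T B hB hT).neg

lemma Mul.sub {k k' : α → β → ℝ} {N N' : ℝ} (h : Mul s t k N) (h' : Mul s t k' N') :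
    Mul s t (fun i j => k i j - k' i j) (N + N') := by
  simpa only [sub_eq_add_neg] using h.add h'.neg

lemma Mul.mul {k k' : α → β → ℝ} {N N' : ℝ} (h : Mul s t k N) (h' : Mul s t k' N')
    (hN : 0 ≤ N') : Mul s t (fun i j => k i j * k' i j) (N * N') := fun T B hB hT => by
  have := h _ _ (mul_nonneg hN hB) (h' T B hB hT)
  simpa only [mul_assoc] using this

lemma Mul.smul {k : α → β → ℝ} {N : ℝ} (h : Mul s t k N) {c C : ℝ} (hc : |c| ≤ C) (hN : 0 ≤ N) :
    Mul s t (fun i j => c * k i j) (C * N) := fun T B hB hT => by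
  have h1 := h T B hB hT
  have h2 : Bdd s t (fun i j => c * k i j * T i j) (|c| * (N * B)) := by
    rcases le_total 0 c with h0 | h0
    · rw [abs_of_nonneg h0]
      simpa only [mul_assoc] using h1.smul h0
    · rw [abs_of_nonpos h0]
      simpa only [mul_assoc, neg_mul, mul_neg, neg_neg] using h1.neg.smul (neg_nonneg.2 h0)
  refine h2.mono ?_
  rw [mul_assoc]
  exact mul_le_mul_of_nonneg_right hc (mul_nonneg hN hB)

lemma Mul.swap {k : α → β → ℝ} {N : ℝ} (h : Mul s t k N) : Mul t s (fun j i => k i j) N :=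
  fun T B hB hT => (h (fun i j => T j i) B hB hT.swap).swap

lemma mul_one' : Mul s t (fun _ _ => 1) 1 := fun T B _ hT => by simpa using hT

lemma mul_const {c C : ℝ} (hc : |c| ≤ C) : Mul s t (fun _ _ => c) C := by
  simpa using (mul_one' (s := s) (t := t)).smul hc zero_le_one

/-- Factorisation through a finite dimensional Euclidean space. -/
lemma mul_factor {ι : Type*} (r : Finset ι) (u : ι → α → ℝ) (v : ι → β → ℝ)
    (hu : ∀ i ∈ s, ∑ n ∈ r, u n i ^ 2 ≤ 1) (hv : ∀ j ∈ t, ∑ n ∈ r, v n j ^ 2 ≤ 1) :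
    Mul s t (fun i j => ∑ n ∈ r, u n i * v n j) 1 := by
  intro T B hB hT p q
  have h1 : ∀ n ∈ r, 2 * ∑ i ∈ s, ∑ j ∈ t, T i j * (u n i * p i) * (v n j * q j) ≤
      B * (∑ i ∈ s, (u n i * p i) ^ 2 + ∑ j ∈ t, (v n j * q j) ^ 2) :=
    fun n _ => hT (fun i => u n i * p i) (fun j => v n j * q j)
  have h2 := sum_le_sum h1
  rw [← mul_sum, ← mul_sum, sum_add_distrib] at h2
  have e1 : ∑ i ∈ s, ∑ j ∈ t, (∑ n ∈ r, u n i * v n j) * T i j * p i * q j =
      ∑ n ∈ r, ∑ i ∈ s, ∑ j ∈ t, T i j * (u n i * p i) * (v n j * q j) := by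
    rw [sum_comm (s := r)]
    refine sum_congr rfl fun i _ => ?_
    rw [sum_comm (s := r)]
    refine sum_congr rfl fun j _ => ?_
    rw [sum_mul, sum_mul, sum_mul]
    exact sum_congr rfl fun n _ => by ring
  have e2 : ∑ n ∈ r, ∑ i ∈ s, (u n i * p i) ^ 2 ≤ ∑ i ∈ s, p i ^ 2 := by
    rw [sum_comm]
    refine sum_le_sum fun i hi => ?_
    simp only [mul_pow, ← sum_mul]
    exact mul_le_of_le_one_left (sq_nonneg _) (hu i hi)
  have e3 : ∑ n ∈ r, ∑ j ∈ t, (v n j * q j) ^ 2 ≤ ∑ j ∈ t, q j ^ 2 := by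
    rw [sum_comm]
    refine sum_le_sum fun j hj => ?_
    simp only [mul_pow, ← sum_mul]
    exact mul_le_of_le_one_left (sq_nonneg _) (hv j hj)
  rw [e1, one_mul]
  exact h2.trans (mul_le_mul_of_nonneg_left (add_le_add e2 e3) hB)

lemma mul_row {a : α → ℝ} {A : ℝ} (hA : 0 ≤ A) (ha : ∀ i ∈ s, |a i| ≤ A) :
    Mul s t (fun i _ => a i) A := by
  have h1 : Mul s t (fun i _ => a i / A) 1 := by
    have := mul_factor (s := s) (t := t) ({0} : Finset ℕ) (fun _ i => a i / A) (fun _ _ => 1)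
      (fun i hi => by
        rw [sum_singleton, sq_le_one_iff_abs_le_one, abs_div, abs_of_nonneg hA]
        exact div_le_one_of_le₀ (ha i hi) hA) (fun j _ => by simp)
    simpa using this
  have h2 := h1.smul (c := A) (C := A) (abs_of_nonneg hA).le zero_le_one
  rw [mul_one] at h2
  refine h2.congr fun i hi j _ => ?_
  rcases hA.eq_or_lt with h0 | h0
  · have := ha i hi
    rw [← h0] at this ⊢
    simpa using this
  · field_simp

lemma mul_col {b : β → ℝ} {A : ℝ} (hA : 0 ≤ A) (hb : ∀ j ∈ t, |b j| ≤ A) :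
    Mul s t (fun _ j => b j) A := (mul_row (s := t) (t := s) hA hb).swap

lemma mul_rc {a : α → ℝ} {b : β → ℝ} {A A' : ℝ} (hA : 0 ≤ A) (hA' : 0 ≤ A')
    (ha : ∀ i ∈ s, |a i| ≤ A) (hb : ∀ j ∈ t, |b j| ≤ A') :
    Mul s t (fun i j => a i * b j) (A * A') := (mul_row hA ha).mul (mul_col hA' hb) hA'

open Classical in
/-- Pinching. -/
lemma mul_pinch (u : α → ℝ) (v : β → ℝ) :
    Mul s t (fun i j => if u i = v j then 1 else 0) 1 := by
  have := mul_factor (s := s) (t := t) (s.image u) (fun c i => if u i = c then 1 else 0)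
    (fun c j => if v j = c then 1 else 0)
    (fun i _ => by
      simp only [ite_pow, one_pow, ne_eq, OfNat.ofNat_ne_zero, not_false_eq_true, zero_pow,
        sum_ite_eq]
      split_ifs <;> norm_num)
    (fun j _ => by
      simp only [ite_pow, one_pow, ne_eq, OfNat.ofNat_ne_zero, not_false_eq_true, zero_pow,
        sum_ite_eq]
      split_ifs <;> norm_num)
  refine this.congr fun i hi j _ => ?_
  simp only [ite_mul, one_mul, zero_mul, sum_ite_eq, mem_image_of_mem u hi, if_true]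
  simp only [eq_comm]

lemma mul_lim {k : ℕ → α → β → ℝ} {k' : α → β → ℝ} {N : ℝ} (h : ∀ n, Mul s t (k n) N)
    (hk : ∀ i ∈ s, ∀ j ∈ t, Tendsto (fun n => k n i j) atTop (𝓝 (k' i j))) : Mul s t k' N := by
  intro T B hB hT p q
  refine le_of_tendsto' (f := fun n => 2 * ∑ i ∈ s, ∑ j ∈ t, k n i j * T i j * p i * q j)
    (x := atTop) ?_ fun n => h n T B hB hT p q
  refine Tendsto.const_mul 2 (tendsto_finsetSum _ fun i hi => tendsto_finsetSum _ fun j hj => ?_)
  exact (((hk i hi j hj).mul_const _).mul_const _).mul_const _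

lemma Mul.pointwise {k : α → β → ℝ} {N : ℝ} {i : α} {j : β} (h : Mul {i} {j} k N) :
    |k i j| ≤ N := by
  have h1 : Bdd {i} {j} (fun _ _ => (1 : ℝ)) 1 := by
    intro p q
    simp only [sum_singleton]
    nlinarith [sq_nonneg (p i - q j)]
  have := (h _ _ zero_le_one h1).ones
  simp only [sum_singleton, mul_one, card_singleton, Nat.cast_one] at this
  linarith

/-- The kernel `2 √σ √τ / (σ + τ)`. -/
noncomputable def hh (σ τ : ℝ) : ℝ := 2 * √σ * √τ / (σ + τ)

lemma mul_hh {σ : α → ℝ} {τ : β → ℝ} (hσ : ∀ i ∈ s, 0 ≤ σ i) (hτ : ∀ j ∈ t, 0 ≤ τ j) :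
    Mul s t (fun i j => hh (σ i) (τ j)) 1 := by
  have hsum : ∀ (x : ℝ), 0 ≤ x → ∀ M : ℕ,
      ∑ n ∈ range M, (2 * √x / (1 + x) * ((1 - x) / (1 + x)) ^ n) ^ 2 ≤ 1 := by
    intro x hx M
    have e : ∑ n ∈ range M, (2 * √x / (1 + x) * ((1 - x) / (1 + x)) ^ n) ^ 2 =
        1 - (((1 - x) / (1 + x)) ^ M) ^ 2 := by
      have h1 : (2 * √x / (1 + x)) ^ 2 = 1 - ((1 - x) / (1 + x)) ^ 2 := by
        rw [div_pow, mul_pow, Real.sq_sqrt hx]
        field_simp
        ring
      induction M with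
      | zero => simp
      | succ M ih =>
        rw [sum_range_succ, ih, mul_pow, h1]
        ring
    rw [e]
    linarith [sq_nonneg (((1 - x) / (1 + x)) ^ M)]
  refine mul_lim (k := fun M i j => ∑ n ∈ range M,
    (2 * √(σ i) / (1 + σ i) * ((1 - σ i) / (1 + σ i)) ^ n) *
      (2 * √(τ j) / (1 + τ j) * ((1 - τ j) / (1 + τ j)) ^ n)) (fun M => ?_) fun i hi j hj => ?_
  · exact mul_factor (range M) _ _ (fun i hi => hsum _ (hσ i hi) M) fun j hj => hsum _ (hτ j hj) M
  · have hx := hσ i hi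
    have hy := hτ j hj
    set x := σ i
    set y := τ j
    rcases hx.eq_or_lt with h0 | h0
    · simp [hh, ← h0]
    rcases hy.eq_or_lt with h1 | h1
    · simp [hh, ← h1]
    have habs : ∀ z : ℝ, 0 < z → |(1 - z) / (1 + z)| < 1 := by
      intro z hz
      rw [abs_div, div_lt_one (abs_pos.2 (by positivity)), abs_of_pos (by positivity : 0 < 1 + z),
        abs_lt]
      constructor <;> linarith
    have hr : |(1 - x) / (1 + x) * ((1 - y) / (1 + y))| < 1 := by
      rw [abs_mul]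
      exact mul_lt_one_of_nonneg_of_lt_one_left (abs_nonneg _) (habs x h0) (habs y h1).le
    have h2 := ((hasSum_geometric_of_abs_lt_one hr).mul_left
      (2 * √x / (1 + x) * (2 * √y / (1 + y)))).tendsto_sum_nat
    have e : 2 * √x / (1 + x) * (2 * √y / (1 + y)) *
        (1 - (1 - x) / (1 + x) * ((1 - y) / (1 + y)))⁻¹ = hh x y := by
      have e1 : 1 - (1 - x) / (1 + x) * ((1 - y) / (1 + y)) = 2 * (x + y) / ((1 + x) * (1 + y)) := by
        field_simp
        ring
      rw [e1, hh]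
      field_simp
    rw [e] at h2
    refine h2.congr fun M => sum_congr rfl fun n _ => ?_
    rw [mul_pow]
    ring

end Pool.Agent.MP_24fbf1_an.Bi
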