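import Pool.Agent.MP_24fbf1_an.Bi.Mul

/-!
Operator Lipschitz estimates and Schur multipliers.
-/

set_option autoImplicit false

open Finset Filter Topology Polynomial

namespace Pool.Agent.MP_24fbf1_an.Bi

/-- The operator Lipschitz estimate on one Hilbert space. -/
def Est (H : Type*) [NormedAddCommGroup H] [InnerProductSpace ℂ H] [CompleteSpace H]
    (f : ℝ → ℝ) (J : Set ℝ) (C : ℝ) : Prop :=
  ∀ A B : H →L[ℂ] H, IsSelfAdjoint A → IsSelfAdjoint B → spectrum ℝ A ⊆ J → spectrum ℝ B ⊆ J →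
    ‖cfc f A - cfc f B‖ ≤ C * ‖A - B‖

section General

variable {H : Type*} [NormedAddCommGroup H] [InnerProductSpace ℂ H] [CompleteSpace H]
  {g : ℝ → ℝ} {c d : ℝ}

lemma cfc_near {A : H →L[ℂ] H} (hA : IsSelfAdjoint A) (hs : spectrum ℝ A ⊆ Set.Icc c d)
    (hg : ContinuousOn g (Set.Icc c d)) {P : ℝ[X]} {ε : ℝ} (hε : 0 ≤ ε)
    (hP : ∀ x ∈ Set.Icc c d, |P.eval x - g x| < ε) : ‖aeval A P - cfc g A‖ ≤ ε := by
  rw [← cfc_polynomial P A, ← cfc_sub _ _ A P.continuous.continuousOn (hg.mono hs)]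
  exact norm_cfc_le hε fun x hx => (hP x (hs hx)).le

omit [CompleteSpace H] in
lemma aeval_eig {A : H →L[ℂ] H} {x : H} {r : ℝ} (hx : A x = (r : ℂ) • x) (P : ℝ[X]) :
    aeval A P x = ((P.eval r : ℝ) : ℂ) • x := by
  have hp : ∀ n : ℕ, (A ^ n) x = ((r : ℂ) ^ n) • x := by
    intro n
    induction n with
    | zero => simp
    | succ n ih => rw [pow_succ', mul_apply_eq_comp, ih, map_smul, hx, smul_smul, pow_succ]
  rw [aeval_eq_sum_range, eval_eq_sum_range, _root_.sum_apply, Complex.ofReal_sum,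
    sum_smul]
  refine sum_congr rfl fun n _ => ?_
  rw [_root_.smul_apply, hp, ← Complex.coe_smul, smul_smul]
  push_cast
  rfl

lemma cfc_eig {A : H →L[ℂ] H} (hA : IsSelfAdjoint A) (hs : spectrum ℝ A ⊆ Set.Icc c d)
    (hg : ContinuousOn g (Set.Icc c d)) {x : H} {r : ℝ} (hr : r ∈ Set.Icc c d)
    (hx : A x = (r : ℂ) • x) : cfc g A x = ((g r : ℝ) : ℂ) • x := by
  rw [← sub_eq_zero, ← norm_le_zero_iff]
  refine le_of_forall_pos_le_add fun ε hε => ?_
  have hε' : 0 < ε / (2 * (‖x‖ + 1)) := by positivity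
  obtain ⟨P, hP⟩ := exists_polynomial_near_of_continuousOn c d g hg _ hε'
  have h1 := (aeval A P - cfc g A).le_of_opNorm_le (cfc_near hA hs hg hε'.le hP) x
  have h2 : ‖((P.eval r - g r : ℝ) : ℂ) • x‖ ≤ ε / (2 * (‖x‖ + 1)) * ‖x‖ := by
    rw [norm_smul, Complex.norm_real]
    exact mul_le_mul_of_nonneg_right (hP r hr).le (norm_nonneg _)
  have e : cfc g A x - ((g r : ℝ) : ℂ) • x =
      ((P.eval r - g r : ℝ) : ℂ) • x - (aeval A P - cfc g A) x := by
    rw [_root_.sub_apply, aeval_eig hx]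
    push_cast
    rw [sub_smul]
    abel
  have h3 : ε / (2 * (‖x‖ + 1)) * ‖x‖ ≤ ε / 2 := by
    rw [div_mul_eq_mul_div, div_le_div_iff₀ (by positivity) (by norm_num)]
    nlinarith [norm_nonneg x]
  rw [e]
  refine (norm_sub_le _ _).trans ?_
  linarith

omit [CompleteSpace H] in
lemma eig_mem {A : H →L[ℂ] H} {x : H} {r : ℝ} (h0 : x ≠ 0) (hx : A x = (r : ℂ) • x) :
    r ∈ spectrum ℝ A := by
  rw [spectrum.mem_iff]
  rintro ⟨u, hu⟩
  have h1 : (u : H →L[ℂ] H) x = 0 := by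
    rw [hu, _root_.sub_apply, hx, Algebra.algebraMap_eq_smul_one,
      _root_.smul_apply, one_apply_eq_self, Complex.coe_smul, sub_self]
  have h2 : ((u⁻¹ : (H →L[ℂ] H)ˣ) : H →L[ℂ] H) ((u : H →L[ℂ] H) x) = x := by
    rw [← mul_apply_eq_comp, Units.inv_mul, one_apply_eq_self]
  rw [h1, map_zero] at h2
  exact h0 h2.symm

lemma norm_of_spec {A : H →L[ℂ] H} (hA : IsSelfAdjoint A) (hcd : c ≤ d)
    (hs : spectrum ℝ A ⊆ Set.Icc c d) :
    ‖A - algebraMap ℝ (H →L[ℂ] H) ((c + d) / 2)‖ ≤ (d - c) / 2 := by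
  have e : A - algebraMap ℝ (H →L[ℂ] H) ((c + d) / 2) = cfc (fun x : ℝ => x - (c + d) / 2) A := by
    rw [cfc_sub (fun x : ℝ => x) (fun _ => (c + d) / 2) A, cfc_id' ℝ A, cfc_const _ A]
  rw [e]
  refine norm_cfc_le (by linarith) fun x hx => ?_
  have := hs hx
  rw [Real.norm_eq_abs, abs_le]
  constructor <;> linarith [this.1, this.2]

lemma spec_of_norm {A : H →L[ℂ] H}
    (h : ‖A - algebraMap ℝ (H →L[ℂ] H) ((c + d) / 2)‖ ≤ (d - c) / 2) :
    spectrum ℝ A ⊆ Set.Icc c d := by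
  intro x hx
  have h1 : x - (c + d) / 2 ∈ spectrum ℝ (A - algebraMap ℝ (H →L[ℂ] H) ((c + d) / 2)) := by
    rw [← spectrum.sub_singleton_eq]
    exact Set.sub_mem_sub hx rfl
  have h2 := spectrum.norm_le_norm_mul_of_mem h1
  have h3 : ‖(1 : H →L[ℂ] H)‖ ≤ 1 := ContinuousLinearMap.norm_id_le
  have h4 := mul_le_of_le_one_right (norm_nonneg (A - algebraMap ℝ (H →L[ℂ] H) ((c + d) / 2))) h3
  have h5 := abs_le.1 ((h2.trans h4).trans h)
  constructor <;> linarith [h5.1, h5.2]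

lemma comm_est {J : Set ℝ} {C : ℝ} (h : Est H g J C) (hg : ContinuousOn g J) {A Z : H →L[ℂ] H}
    (hA : IsSelfAdjoint A) (hs : spectrum ℝ A ⊆ J) (hZ : Z ∈ skewAdjoint (H →L[ℂ] H)) :
    ‖Z * cfc g A - cfc g A * Z‖ ≤ C * ‖Z * A - A * Z‖ := by
  have key : ∀ u : unitary (H →L[ℂ] H),
      ‖(u : H →L[ℂ] H) * cfc g A - cfc g A * u‖ ≤ C * ‖(u : H →L[ℂ] H) * A - A * u‖ := by
    intro u
    have h1 : IsSelfAdjoint ((u : H →L[ℂ] H) * A * star (u : H →L[ℂ] H)) := hA.conjugate _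
    have h2 := h _ A h1 hA (by rw [Unitary.spectrum_star_right_conjugate]; exact hs) hs
    have h3 : (u : H →L[ℂ] H) * cfc g A * star (u : H →L[ℂ] H) =
        cfc g ((u : H →L[ℂ] H) * A * star (u : H →L[ℂ] H)) :=
      StarAlgHomClass.map_cfc (S := ℂ) (Unitary.conjStarAlgAut ℂ (H →L[ℂ] H) u) g A (hg.mono hs)
        (by
          change Continuous fun x => (u : H →L[ℂ] H) * x * star (u : H →L[ℂ] H)
          fun_prop) hA h1
    have h4 : ∀ X : H →L[ℂ] H, ‖(u : H →L[ℂ] H) * X - X * u‖ =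
        ‖(u : H →L[ℂ] H) * X * star (u : H →L[ℂ] H) - X‖ := by
      intro X
      rw [← CStarRing.norm_mul_coe_unitary ((u : H →L[ℂ] H) * X * star (u : H →L[ℂ] H) - X) u,
        sub_mul, mul_assoc _ (star (u : H →L[ℂ] H)), Unitary.coe_star_mul_self, mul_one]
    rw [h4, h4, h3]
    exact h2
  have der : ∀ X : H →L[ℂ] H, Tendsto (fun t : ℝ =>
      ‖t⁻¹ • (NormedSpace.exp (t • Z) * X - X * NormedSpace.exp (t • Z))‖) (𝓝[>] 0)
      (𝓝 ‖Z * X - X * Z‖) := by
    intro X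
    have h1 : HasDerivAt (fun t : ℝ => NormedSpace.exp (t • Z))
        (NormedSpace.exp ((0 : ℝ) • Z) * Z) 0 := hasDerivAt_exp_smul_const Z 0
    have h2 := ((h1.mul_const X).sub (h1.const_mul X)).tendsto_slope_zero_right.norm
    simpa using h2
  refine le_of_tendsto_of_tendsto' (der (cfc g A)) ((der A).const_mul C) fun t => ?_
  have h0 : t • Z ∈ skewAdjoint (H →L[ℂ] H) := by
    rw [skewAdjoint.mem_iff] at hZ ⊢
    rw [star_smul, hZ, star_trivial, smul_neg]
  let _ : NormedAlgebra ℚ (H →L[ℂ] H) := .restrictScalars ℚ ℂ _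
  have h1 := key ⟨NormedSpace.exp (t • Z), NormedSpace.exp_mem_unitary_of_mem_skewAdjoint h0⟩
  rw [norm_smul, norm_smul, mul_left_comm]
  exact mul_le_mul_of_nonneg_left h1 (norm_nonneg _)

end General

section Finite

variable {E : Type*} [NormedAddCommGroup E] [InnerProductSpace ℂ E] {α β : Type*} [Fintype α]
  [Fintype β]

lemma norm_sq_comb (e : OrthonormalBasis α ℂ E) (p : α → ℝ) :
    ‖∑ i, (p i : ℂ) • e i‖ ^ 2 = ∑ i, p i ^ 2 := by
  have := e.sum_repr_symm (WithLp.toLp 2 fun i => (p i : ℂ))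
  simp only at this
  rw [this, LinearIsometryEquiv.norm_map, EuclideanSpace.norm_sq_eq]
  simp

lemma bdd_of_norm (e : OrthonormalBasis α ℂ E) (f : OrthonormalBasis β ℂ E) (S : E →L[ℂ] E)
    {ζ : ℂ} (hζ : ‖ζ‖ ≤ 1) :
    Bdd univ univ (fun i j => (ζ * inner ℂ (e i) (S (f j))).re) ‖S‖ := by
  intro p q
  have e1 : ∑ i, ∑ j, (ζ * inner ℂ (e i) (S (f j))).re * p i * q j =
      (ζ * inner ℂ (∑ i, (p i : ℂ) • e i) (S (∑ j, (q j : ℂ) • f j))).re := by
    simp only [map_sum, map_smul, sum_inner, inner_sum, inner_smul_left, inner_smul_right, mul_sum,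
      Complex.re_sum, Complex.conj_ofReal]
    rw [sum_comm]
    refine sum_congr rfl fun j _ => sum_congr rfl fun i _ => ?_
    rw [show ζ * ((q j : ℂ) * ((p i : ℂ) * inner ℂ (e i) (S (f j)))) =
      ((p i * q j : ℝ) : ℂ) * (ζ * inner ℂ (e i) (S (f j))) by push_cast; ring, Complex.re_ofReal_mul]
    ring
  rw [e1, ← norm_sq_comb e, ← norm_sq_comb f]
  generalize ∑ i, (p i : ℂ) • e i = x
  generalize ∑ j, (q j : ℂ) • f j = y
  have h1 : (ζ * inner ℂ x (S y)).re ≤ ‖x‖ * (‖S‖ * ‖y‖) := by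
    refine (Complex.re_le_norm _).trans ?_
    rw [norm_mul]
    refine (mul_le_of_le_one_left (norm_nonneg _) hζ).trans ((norm_inner_le_norm _ _).trans ?_)
    exact mul_le_mul_of_nonneg_left (S.le_opNorm y) (norm_nonneg _)
  nlinarith [mul_nonneg (norm_nonneg S) (sq_nonneg (‖x‖ - ‖y‖))]

lemma norm_of_bdd (e : OrthonormalBasis α ℂ E) (f : OrthonormalBasis β ℂ E) (S : E →L[ℂ] E)
    {B : ℝ} (hB : 0 ≤ B) (h1 : Bdd univ univ (fun i j => (inner ℂ (e i) (S (f j))).re) B)
    (h2 : Bdd univ univ (fun i j => (inner ℂ (e i) (S (f j))).im) B) : ‖S‖ ≤ 2 * B := by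
  refine S.opNorm_le_bound (by positivity) fun x => ?_
  have a1 := h1.analysis hB fun j => (inner ℂ (f j) x).re
  have a2 := h1.analysis hB fun j => (inner ℂ (f j) x).im
  have a3 := h2.analysis hB fun j => (inner ℂ (f j) x).re
  have a4 := h2.analysis hB fun j => (inner ℂ (f j) x).im
  have b1 : ‖x‖ ^ 2 = ∑ j, (inner ℂ (f j) x).re ^ 2 + ∑ j, (inner ℂ (f j) x).im ^ 2 := by
    rw [← f.sum_sq_norm_inner_right x, ← sum_add_distrib]
    refine sum_congr rfl fun j _ => ?_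
    rw [Complex.sq_norm, Complex.normSq_apply]
    ring
  have b2 : ∀ i, ‖inner ℂ (e i) (S x)‖ ^ 2 ≤
      2 * ((∑ j, (inner ℂ (e i) (S (f j))).re * (inner ℂ (f j) x).re) ^ 2 +
        (∑ j, (inner ℂ (e i) (S (f j))).re * (inner ℂ (f j) x).im) ^ 2 +
        (∑ j, (inner ℂ (e i) (S (f j))).im * (inner ℂ (f j) x).re) ^ 2 +
        (∑ j, (inner ℂ (e i) (S (f j))).im * (inner ℂ (f j) x).im) ^ 2) := by
    intro i
    have e1 : inner ℂ (e i) (S x) = ∑ j, inner ℂ (e i) (S (f j)) * inner ℂ (f j) x := by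
      conv_lhs => rw [← f.sum_repr' x]
      simp only [map_sum, map_smul, inner_sum, inner_smul_right]
      exact sum_congr rfl fun j _ => mul_comm _ _
    rw [e1, Complex.sq_norm, Complex.normSq_apply]
    simp only [Complex.re_sum, Complex.im_sum, Complex.mul_re, Complex.mul_im, sum_sub_distrib,
      sum_add_distrib]
    generalize ∑ j, (inner ℂ (e i) (S (f j))).re * (inner ℂ (f j) x).re = u₁
    generalize ∑ j, (inner ℂ (e i) (S (f j))).re * (inner ℂ (f j) x).im = u₂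
    generalize ∑ j, (inner ℂ (e i) (S (f j))).im * (inner ℂ (f j) x).re = u₃
    generalize ∑ j, (inner ℂ (e i) (S (f j))).im * (inner ℂ (f j) x).im = u₄
    nlinarith [sq_nonneg (u₁ + u₄), sq_nonneg (u₂ - u₃)]
  have b3 := sum_le_sum fun i (_ : i ∈ univ) => b2 i
  rw [e.sum_sq_norm_inner_right, ← mul_sum] at b3
  simp only [sum_add_distrib] at b3
  refine (pow_le_pow_iff_left₀ (norm_nonneg _) (by positivity) two_ne_zero).1 ?_
  rw [mul_pow, b1]
  nlinarith

end Finite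

/-- The difference quotient of `g` admits a multiplier bound on every finite family in `J`. -/
def MulDiff (g : ℝ → ℝ) (J : Set ℝ) (M : ℝ) : Prop :=
  ∀ (n n' : ℕ) (u : Fin n → ℝ) (v : Fin n' → ℝ), (∀ i, u i ∈ J) → (∀ j, v j ∈ J) →
    ∃ k : Fin n → Fin n' → ℝ, Mul univ univ k M ∧ ∀ i j, g (u i) - g (v j) = k i j * (u i - v j)

lemma est_finite {E : Type*} [NormedAddCommGroup E] [InnerProductSpace ℂ E] [CompleteSpace E]
    [FiniteDimensional ℂ E] {g : ℝ → ℝ} {c d M : ℝ} (hg : ContinuousOn g (Set.Icc c d))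
    (hM : 0 ≤ M) (h : MulDiff g (Set.Icc c d) M) : Est E g (Set.Icc c d) (2 * M) := by
  intro A B hA hB hsA hsB
  let e := hA.isSymmetric.eigenvectorBasis rfl
  let f := hB.isSymmetric.eigenvectorBasis rfl
  let u := hA.isSymmetric.eigenvalues rfl
  let v := hB.isSymmetric.eigenvalues rfl
  have he : ∀ i, A (e i) = (u i : ℂ) • e i := fun i => hA.isSymmetric.apply_eigenvectorBasis rfl i
  have hf : ∀ j, B (f j) = (v j : ℂ) • f j := fun j => hB.isSymmetric.apply_eigenvectorBasis rfl j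
  have hu : ∀ i, u i ∈ Set.Icc c d := fun i => hsA (eig_mem (e.orthonormal.ne_zero i) (he i))
  have hv : ∀ j, v j ∈ Set.Icc c d := fun j => hsB (eig_mem (f.orthonormal.ne_zero j) (hf j))
  obtain ⟨k, hk, hk'⟩ := h _ _ u v hu hv
  have ent : ∀ (A' B' : E →L[ℂ] E) (_ : IsSelfAdjoint A') (r s : ℝ) (x y : E),
      A' x = (r : ℂ) • x → B' y = (s : ℂ) • y →
      inner ℂ x ((A' - B') y) = ((r - s : ℝ) : ℂ) * inner ℂ x y := by
    intro A' B' hA' r s x y h1 h2
    have := hA'.isSymmetric x y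
    simp only [ContinuousLinearMap.coe_coe] at this
    rw [_root_.sub_apply, inner_sub_right, ← this, h1, h2, inner_smul_left,
      inner_smul_right, Complex.conj_ofReal]
    push_cast
    ring
  have key : ∀ i j, inner ℂ (e i) ((cfc g A - cfc g B) (f j)) =
      (k i j : ℂ) * inner ℂ (e i) ((A - B) (f j)) := by
    intro i j
    rw [ent _ _ (cfc_predicate g A) _ _ _ _ (cfc_eig hA hsA hg (hu i) (he i))
      (cfc_eig hB hsB hg (hv j) (hf j)), ent _ _ hA _ _ _ _ (he i) (hf j), hk']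
    push_cast
    ring
  rw [mul_assoc]
  refine norm_of_bdd e f _ (by positivity) ?_ ?_
  · refine (hk _ _ (norm_nonneg _) (bdd_of_norm e f (A - B) (ζ := 1) (by simp))).congr
      fun i _ j _ => ?_
    rw [key, Complex.re_ofReal_mul, one_mul]
  · refine (hk _ _ (norm_nonneg _) (bdd_of_norm e f (A - B) (ζ := -Complex.I) (by simp))).congr
      fun i _ j _ => ?_
    rw [key, Complex.im_ofReal_mul]
    simp

lemma tri_est {E : Type*} [NormedAddCommGroup E] [NormedSpace ℂ E] {P Q G G' : E →L[ℂ] E} {x : E}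
    {δ η : ℝ} (h1 : ‖(P - G) x‖ ≤ δ) (h2 : ‖(Q - G') x‖ ≤ δ) (h3 : ‖(G - G') x‖ ≤ η) :
    ‖P x - Q x‖ ≤ η + 2 * δ := by
  have e : P x - Q x = (G - G') x + ((P - G) x - (Q - G') x) := by
    simp only [_root_.sub_apply]
    abel
  rw [e]
  refine (norm_add_le _ _).trans (add_le_add h3 ((norm_sub_le _ _).trans ?_))
  linarith

theorem est_of_mulDiff {H : Type*} [NormedAddCommGroup H] [InnerProductSpace ℂ H] [CompleteSpace H]
    {g : ℝ → ℝ} {c d M : ℝ} (hcd : c ≤ d) (hg : ContinuousOn g (Set.Icc c d))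
    (hM : 0 ≤ M) (h : MulDiff g (Set.Icc c d) M) : Est H g (Set.Icc c d) (2 * M) := by
  intro A B hA hB hsA hsB
  refine ContinuousLinearMap.opNorm_le_bound _ (by positivity) fun w => ?_
  refine le_of_forall_pos_le_add fun ε hε => ?_
  have hε' : 0 < ε / (4 * (‖w‖ + 1)) := by positivity
  obtain ⟨P, hP⟩ := exists_polynomial_near_of_continuousOn c d g hg _ hε'
  let V : Submodule ℂ H := Submodule.span ℂ
    ((fun k => (A ^ k) w) '' Set.Iic P.natDegree ∪ (fun k => (B ^ k) w) '' Set.Iic P.natDegree)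
  have : FiniteDimensional ℂ V := FiniteDimensional.span_of_finite ℂ
    (((Set.finite_Iic _).image _).union ((Set.finite_Iic _).image _))
  let cmp : (H →L[ℂ] H) → (V →L[ℂ] V) := fun X => V.orthogonalProjectionOnto ∘L X ∘L V.subtypeL
  have c1 : ∀ X, IsSelfAdjoint X → IsSelfAdjoint (cmp X) := fun X hX => by
    have := hX.adjoint_conj V.subtypeL
    rwa [Submodule.adjoint_subtypeL] at this
  have c2 : ∀ X, ‖cmp X‖ ≤ ‖X‖ := fun X =>
    ContinuousLinearMap.opNorm_le_bound _ (norm_nonneg _) fun v =>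
      (V.norm_orthogonalProjectionOnto_apply_le _).trans (X.le_opNorm v)
  have c3 : ∀ X Y, cmp X - cmp Y = cmp (X - Y) := fun X Y => by
    ext v
    simp [cmp]
  have c4 : ∀ r : ℝ, algebraMap ℝ (V →L[ℂ] V) r = cmp (algebraMap ℝ (H →L[ℂ] H) r) := fun r => by
    ext v
    simp [cmp, Algebra.algebraMap_eq_smul_one, ← Complex.coe_smul]
  have c5 : ∀ X, IsSelfAdjoint X → spectrum ℝ X ⊆ Set.Icc c d →
      spectrum ℝ (cmp X) ⊆ Set.Icc c d := fun X h1 h2 =>
    spec_of_norm (by rw [c4, c3]; exact (c2 _).trans (norm_of_spec h1 hcd h2))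
  have hw : w ∈ V := Submodule.subset_span (Or.inl ⟨0, Nat.zero_le _, by simp⟩)
  have c6 : ∀ X : H →L[ℂ] H, (∀ k ≤ P.natDegree, (X ^ k) w ∈ V) →
      ((aeval (cmp X) P ⟨w, hw⟩ : V) : H) = aeval X P w := by
    intro X hX
    have hp : ∀ k ≤ P.natDegree, (((cmp X ^ k) ⟨w, hw⟩ : V) : H) = (X ^ k) w := by
      intro k
      induction k with
      | zero => simp
      | succ k ih =>
        intro hk
        have h1 := hX _ hk
        rw [pow_succ', mul_apply_eq_comp] at h1 ⊢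
        rw [pow_succ', mul_apply_eq_comp]
        change V.starProjection (X ((cmp X ^ k) ⟨w, hw⟩ : V)) = _
        rw [ih (by omega)]
        exact Submodule.starProjection_eq_self_iff.2 h1
    rw [aeval_eq_sum_range, aeval_eq_sum_range, _root_.sum_apply,
      _root_.sum_apply, Submodule.coe_sum]
    refine sum_congr rfl fun k hk => ?_
    rw [_root_.smul_apply, _root_.smul_apply, ← hp k (by
      rw [mem_range] at hk; omega)]
    rfl
  have d1 := c6 A fun k hk => Submodule.subset_span (Or.inl ⟨k, hk, rfl⟩)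
  have d2 := c6 B fun k hk => Submodule.subset_span (Or.inr ⟨k, hk, rfl⟩)
  have n1 := ContinuousLinearMap.le_of_opNorm_le _ (cfc_near hA hsA hg hε'.le hP) w
  have n2 := ContinuousLinearMap.le_of_opNorm_le _ (cfc_near hB hsB hg hε'.le hP) w
  have n3 := ContinuousLinearMap.le_of_opNorm_le _
    (cfc_near (c1 A hA) (c5 A hA hsA) hg hε'.le hP) ⟨w, hw⟩
  have n4 := ContinuousLinearMap.le_of_opNorm_le _
    (cfc_near (c1 B hB) (c5 B hB hsB) hg hε'.le hP) ⟨w, hw⟩
  have n5 := est_finite hg hM h _ _ (c1 A hA) (c1 B hB) (c5 A hA hsA) (c5 B hB hsB)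
  rw [c3] at n5
  have n6 := ContinuousLinearMap.le_of_opNorm_le _
    (n5.trans (mul_le_mul_of_nonneg_left (c2 _) (by positivity))) ⟨w, hw⟩
  have nw : ‖(⟨w, hw⟩ : V)‖ = ‖w‖ := rfl
  rw [nw] at n3 n4 n6
  have n7 : ‖aeval A P w - aeval B P w‖ ≤ 2 * M * ‖A - B‖ * ‖w‖ +
      2 * (ε / (4 * (‖w‖ + 1)) * ‖w‖) := by
    rw [← d1, ← d2, ← Submodule.coe_sub, ← Submodule.coe_norm]
    exact tri_est n3 n4 n6
  have e : (cfc g A - cfc g B) w = (aeval A P w - aeval B P w) +
      ((aeval B P - cfc g B) w - (aeval A P - cfc g A) w) := by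
    simp only [_root_.sub_apply]
    abel
  have h3 : ε / (4 * (‖w‖ + 1)) * ‖w‖ ≤ ε / 4 := by
    rw [div_mul_eq_mul_div, div_le_div_iff₀ (by positivity) (by norm_num)]
    nlinarith [norm_nonneg w]
  rw [e]
  refine (norm_add_le _ _).trans ((add_le_add n7 (norm_sub_le _ _)).trans ?_)
  linarith

/-- The operator with a given real matrix. -/
noncomputable def opm {γ : Type*} [Fintype γ] [DecidableEq γ] (X : γ → γ → ℝ) :
    EuclideanSpace ℂ γ →L[ℂ] EuclideanSpace ℂ γ :=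
  Matrix.toEuclideanCLM (n := γ) (𝕜 := ℂ) (Matrix.of fun i j => (X i j : ℂ))

lemma opm_entry {γ : Type*} [Fintype γ] [DecidableEq γ] (X : γ → γ → ℝ) (i j : γ) :
    inner ℂ (EuclideanSpace.basisFun γ ℂ i) (opm X (EuclideanSpace.basisFun γ ℂ j)) = X i j := by
  rw [EuclideanSpace.basisFun_inner, opm]
  change (Matrix.toEuclideanCLM (n := γ) (𝕜 := ℂ) (Matrix.of fun i j => (X i j : ℂ))
    (EuclideanSpace.basisFun γ ℂ j)).ofLp i = _
  rw [Matrix.ofLp_toEuclideanCLM]
  simp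

lemma opm_star {γ : Type*} [Fintype γ] [DecidableEq γ] (X : γ → γ → ℝ) :
    star (opm X) = opm fun i j => X j i := by
  rw [opm, ← map_star, opm]
  congr 1
  ext i j
  simp

lemma square {γ : Type*} [Fintype γ] {f : ℝ → ℝ} {a b C : ℝ} (hab : a ≤ b)
    (hf : ContinuousOn f (Set.Icc a b)) (hC : 0 ≤ C)
    (h : Est (EuclideanSpace ℂ γ) f (Set.Icc a b) C) (w : γ → ℝ) (hw : ∀ c, w c ∈ Set.Icc a b)
    (T : γ → γ → ℝ) (hT : ∀ c d, T c d = T d c) {B : ℝ} (hB : 0 ≤ B) (hb : Bdd univ univ T B) :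
    Bdd univ univ (fun c d => (f (w c) - f (w d)) / (w c - w d) * T c d) (4 * C * B) := by
  classical
  set e := EuclideanSpace.basisFun γ ℂ with he
  set A := opm fun c d => if c = d then w c else 0 with hA
  set Z := opm fun c d => T c d / (w c - w d) with hZ
  have a1 : IsSelfAdjoint A := by
    rw [IsSelfAdjoint, hA, opm_star]
    congr 1
    ext c d
    split_ifs with h1 h2 h2
    exacts [by rw [h1], absurd h1.symm h2, absurd h2.symm h1, rfl]
  have a2 : Z ∈ skewAdjoint _ := by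
    rw [skewAdjoint.mem_iff, hZ, opm_star, opm, opm, ← map_neg]
    congr 1
    ext c d
    simp only [Matrix.of_apply, Matrix.neg_apply]
    rw [hT d c, ← neg_sub (w c), div_neg, Complex.ofReal_neg]
  have a3 : ∀ c, A (e c) = (w c : ℂ) • e c := by
    intro c
    rw [← e.sum_repr' (A (e c))]
    simp only [hA, he, opm_entry]
    rw [sum_eq_single c (fun d _ hd => by simp [hd]) (by simp)]
    simp
  have a4 : spectrum ℝ A ⊆ Set.Icc a b := by
    refine spec_of_norm (ContinuousLinearMap.opNorm_le_bound _ (by linarith) fun x => ?_)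
    refine (pow_le_pow_iff_left₀ (norm_nonneg _) (mul_nonneg (by linarith) (norm_nonneg _))
      two_ne_zero).1 ?_
    rw [mul_pow, ← e.sum_sq_norm_inner_right, ← e.sum_sq_norm_inner_right x, mul_sum]
    refine sum_le_sum fun c _ => ?_
    have s1 := a1.isSymmetric (e c) x
    simp only [ContinuousLinearMap.coe_coe] at s1
    have s2 : inner ℂ (e c) ((A - algebraMap ℝ _ ((a + b) / 2)) x) =
        ((w c - (a + b) / 2 : ℝ) : ℂ) * inner ℂ (e c) x := by
      rw [_root_.sub_apply, inner_sub_right, ← s1, a3, inner_smul_left, Complex.conj_ofReal,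
        Algebra.algebraMap_eq_smul_one, _root_.smul_apply, one_apply_eq_self, ← Complex.coe_smul,
        inner_smul_right]
      push_cast
      ring
    rw [s2, norm_mul, mul_pow, Complex.norm_real, Real.norm_eq_abs, sq_abs]
    refine mul_le_mul_of_nonneg_right ?_ (sq_nonneg _)
    have := hw c
    nlinarith [this.1, this.2]
  have ent : ∀ (A' : EuclideanSpace ℂ γ →L[ℂ] EuclideanSpace ℂ γ) (_ : IsSelfAdjoint A')
      (r : γ → ℝ), (∀ c, A' (e c) = (r c : ℂ) • e c) → ∀ c d,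
      inner ℂ (e c) ((Z * A' - A' * Z) (e d)) =
        ((-((r c - r d) / (w c - w d) * T c d) : ℝ) : ℂ) := by
    intro A' h1 r h2 c d
    have s1 := h1.isSymmetric (e c) (Z (e d))
    simp only [ContinuousLinearMap.coe_coe] at s1
    rw [_root_.sub_apply, inner_sub_right, mul_apply_eq_comp, mul_apply_eq_comp, ← s1, h2, h2,
      map_smul, inner_smul_left, inner_smul_right, Complex.conj_ofReal, hZ, he, opm_entry]
    push_cast
    ring
  have b1 := comm_est h hf a1 a4 a2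
  have b2 : ‖Z * A - A * Z‖ ≤ 2 * (2 * B) := by
    refine norm_of_bdd e e _ (by positivity) ?_ ?_
    · have := (((mul_pinch w w).sub mul_one') T B hB hb).mono (le_of_eq (by ring) : _ ≤ 2 * B)
      refine this.congr fun c _ d _ => ?_
      rw [ent A a1 w a3, Complex.ofReal_re]
      beta_reduce
      split_ifs with h1
      · simp [h1]
      · rw [div_self (sub_ne_zero.2 h1)]
        ring
    · intro p q
      simp only [ent A a1 w a3, Complex.ofReal_im, zero_mul, sum_const_zero, mul_zero]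
      exact mul_nonneg (by positivity) (sq_sum_nonneg _ _ _ _)
  have b3 := (bdd_of_norm e e (Z * cfc f A - cfc f A * Z) (ζ := -1) (by simp)).mono
    (b1.trans (mul_le_mul_of_nonneg_left b2 hC))
  refine (b3.mono (le_of_eq (by ring))).congr fun c _ d _ => ?_
  rw [ent _ (cfc_predicate f A) (fun c => f (w c)) fun c => cfc_eig a1 a4 hf (hw c) (a3 c),
    neg_one_mul, ← Complex.ofReal_neg, neg_neg, Complex.ofReal_re]

lemma Bdd.equiv {γ γ' : Type*} [Fintype γ] [Fintype γ'] (e : γ' ≃ γ) {T : γ → γ → ℝ} {B : ℝ}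
    (h : Bdd univ univ T B) : Bdd univ univ (fun c d => T (e c) (e d)) B := by
  intro p q
  have := h (fun c => p (e.symm c)) fun d => q (e.symm d)
  simpa only [← e.sum_comp, Equiv.symm_apply_apply] using this

universe u in
lemma square' {γ : Type} [Fintype γ] {f : ℝ → ℝ} {a b C : ℝ} (hab : a ≤ b)
    (hf : ContinuousOn f (Set.Icc a b)) (hC : 0 ≤ C)
    (h : Est (EuclideanSpace ℂ (ULift.{u} γ)) f (Set.Icc a b) C) (w : γ → ℝ)
    (hw : ∀ c, w c ∈ Set.Icc a b) (T : γ → γ → ℝ) (hT : ∀ c d, T c d = T d c) {B : ℝ} (hB : 0 ≤ B)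
    (hb : Bdd univ univ T B) :
    Bdd univ univ (fun c d => (f (w c) - f (w d)) / (w c - w d) * T c d) (4 * C * B) :=
  (square hab hf hC h (fun c => w c.down) (fun _ => hw _) (fun c d => T c.down d.down)
    (fun _ _ => hT _ _) hB (hb.equiv Equiv.ulift)).equiv Equiv.ulift.symm

universe u in
theorem mul_of_est {f : ℝ → ℝ} {a b C : ℝ} (hab : a ≤ b) (hf : ContinuousOn f (Set.Icc a b))
    (hC : 0 ≤ C)
    (h : ∀ (γ : Type u) [Fintype γ], Est (EuclideanSpace ℂ γ) f (Set.Icc a b) C)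
    {α β : Type} (s : Finset α) (t : Finset β) (u : α → ℝ) (v : β → ℝ)
    (hu : ∀ i, u i ∈ Set.Icc a b) (hv : ∀ j, v j ∈ Set.Icc a b) :
    Mul s t (fun i j => (f (u i) - f (v j)) / (u i - v j)) (4 * C) := by
  classical
  intro T B hB hT p q
  have hT' : ∀ (P : s → ℝ) (Q : t → ℝ), 2 * ∑ i : s, ∑ j : t, T i j * P i * Q j ≤
      B * (∑ i, P i ^ 2 + ∑ j, Q j ^ 2) := by
    intro P Q
    have := hT (fun i => if h : i ∈ s then P ⟨i, h⟩ else 0) fun j => if h : j ∈ t then Q ⟨j, h⟩ else 0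
    simp only [← sum_coe_sort s, ← sum_coe_sort t, coe_mem, dite_true, Subtype.coe_eta] at this
    exact this
  have h1 := square' hab hf hC (h (ULift (s ⊕ t))) (Sum.elim (fun i => u i) fun j => v j)
    (by rintro (c | d); exacts [hu _, hv _])
    (fun c d => Sum.elim (fun i : s => Sum.elim (fun _ : s => (0 : ℝ)) (fun j : t => T i j) d)
      (fun j : t => Sum.elim (fun i : s => T i j) (fun _ : t => (0 : ℝ)) d) c)
    (by rintro (c | c) (d | d) <;> rfl) hB (by
      intro P Q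
      have h2 := hT' (fun i => P (Sum.inl i)) fun j => Q (Sum.inr j)
      have h3 := hT' (fun i => Q (Sum.inl i)) fun j => P (Sum.inr j)
      simp only [Fintype.sum_sum_type, Sum.elim_inl, Sum.elim_inr, zero_mul, sum_const_zero,
        add_zero, zero_add]
      have e : ∑ j : t, ∑ i : s, T i j * P (Sum.inr j) * Q (Sum.inl i) =
          ∑ i : s, ∑ j : t, T i j * Q (Sum.inl i) * P (Sum.inr j) := by
        rw [sum_comm]
        exact sum_congr rfl fun i _ => sum_congr rfl fun j _ => by ring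
      rw [e]
      linarith) (Sum.elim (fun i => p i) fun _ => 0) (Sum.elim (fun _ => 0) fun j => q j)
  simp only [Fintype.sum_sum_type, Sum.elim_inl, Sum.elim_inr, zero_mul, mul_zero, sum_const_zero,
    add_zero, zero_add, ne_eq, OfNat.ofNat_ne_zero, not_false_eq_true, zero_pow] at h1
  simp only [← sum_coe_sort s, ← sum_coe_sort t]
  exact h1

end Pool.Agent.MP_24fbf1_an.Bi
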